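import Mathlib

open Finset ArithmeticFunction

namespace Pool.Agent.Results.MP_c5ead3_nt.AlmostPerfectEquivalence

/-- The sum of the positive divisors of `m`. -/
def sg (m : ℕ) : ℕ := ∑ d ∈ m.divisors, d

/-- The multipliers of `n`: positive deficient `k` such that `k * n` is non-deficient. -/
def Mult (n : ℕ) : Set ℕ :=
  {k | 1 ≤ k ∧ sg k < 2 * k ∧ 2 * (k * n) ≤ sg (k * n)}

/-- `a(n)`, the least multiplier of `n`. -/
noncomputable def a (n : ℕ) : ℕ := sInf (Mult n)

lemma sg_eq (m : ℕ) : sg m = sigma 1 m := (sigma_one_apply m).symm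

lemma sg_mul {m n : ℕ} (h : Nat.Coprime m n) : sg (m * n) = sg m * sg n := by
  rw [sg_eq, sg_eq, sg_eq]
  exact isMultiplicative_sigma.map_mul_of_coprime h

lemma sg_two_pow (j : ℕ) : sg (2 ^ j) + 1 = 2 ^ (j + 1) := by
  rw [sg_eq, sigma_one_apply_prime_pow Nat.prime_two]
  induction j with
  | zero => simp
  | succ n ih =>
    rw [Finset.sum_range_succ, pow_succ 2 (n + 1)]
    omega

lemma sg_prime {p : ℕ} (hp : p.Prime) : sg p = p + 1 := by
  unfold sg
  rw [hp.divisors, Finset.sum_pair hp.one_lt.ne]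
  omega

lemma sg_one : sg 1 = 1 := by decide

lemma sg_ge_div {n p : ℕ} (hn : 0 < n) (hp : 1 < p) (h : p ∣ n) : n + n / p ≤ sg n := by
  have hne : n ≠ n / p := (Nat.div_lt_self hn hp).ne'
  have : ∑ d ∈ ({n, n / p} : Finset ℕ), d ≤ sg n := by
    apply Finset.sum_le_sum_of_subset
    intro d hd
    simp only [Finset.mem_insert, Finset.mem_singleton] at hd
    rcases hd with rfl | rfl
    · exact Nat.mem_divisors_self _ hn.ne'
    · exact Nat.mem_divisors.2 ⟨Nat.div_dvd_of_dvd h, hn.ne'⟩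
  rwa [Finset.sum_pair hne] at this

lemma sg_ge_succ {n : ℕ} (hn : 2 ≤ n) : n + 1 ≤ sg n := by
  have := sg_ge_div (n := n) (p := n) (by omega) (by omega) dvd_rfl
  rwa [Nat.div_self (by omega)] at this

lemma sg_ge_self {n : ℕ} (hn : 1 ≤ n) : n ≤ sg n := by
  rcases Nat.lt_or_ge n 2 with h | h
  · have : n = 1 := by omega
    subst this; simp [sg_one]
  · exact (Nat.le_succ n).trans (sg_ge_succ h)

lemma sg_six {n : ℕ} (hn : 0 < n) (h : 6 ∣ n) : 2 * n ≤ sg n := by
  obtain ⟨m, rfl⟩ := h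
  have hm : 0 < m := by omega
  have : ∑ d ∈ ({6 * m, 3 * m, 2 * m, m} : Finset ℕ), d ≤ sg (6 * m) := by
    apply Finset.sum_le_sum_of_subset
    intro d hd
    simp only [Finset.mem_insert, Finset.mem_singleton] at hd
    refine Nat.mem_divisors.2 ⟨?_, by omega⟩
    rcases hd with rfl | rfl | rfl | rfl
    · exact dvd_rfl
    · exact Nat.mul_dvd_mul (by norm_num) dvd_rfl
    · exact Nat.mul_dvd_mul (by norm_num) dvd_rfl
    · exact Dvd.intro_left _ rfl
  rw [Finset.sum_insert (by simp; omega), Finset.sum_insert (by simp; omega),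
    Finset.sum_insert (by simp; omega), Finset.sum_singleton] at this
  omega

/-- odd `n`: some power of two is a multiplier. -/
lemma mult_odd {n : ℕ} (hn : 2 ≤ n) (ho : Odd n) : 2 ^ n ∈ Mult n := by
  have h1 := sg_two_pow n
  have hc : Nat.Coprime (2 ^ n) n := Nat.Coprime.pow_left _ (Nat.coprime_two_left.2 ho)
  have hp : 1 ≤ 2 ^ n := Nat.one_le_two_pow
  refine ⟨hp, by rw [pow_succ] at h1; omega, ?_⟩
  rw [sg_mul hc]
  have h2 := sg_ge_succ hn
  have h3 : n < 2 ^ n := Nat.lt_two_pow_self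
  have h4 : sg (2 ^ n) * (n + 1) ≤ sg (2 ^ n) * sg n := Nat.mul_le_mul_left _ h2
  rw [pow_succ] at h1
  nlinarith

lemma key {n k t : ℕ} (ho : Odd n) (hn : 2 ≤ n) (hk : k ∈ Mult n) (hkt : k ≤ 2 ^ (t + 1))
    (hT : 2 ^ t ∉ Mult n) : sg k + 1 = 2 * k := by
  obtain ⟨hk1, hk2, hk3⟩ := hk
  have hs2 := sg_two_pow t
  have hc2 : Nat.Coprime (2 ^ t) n := Nat.Coprime.pow_left _ (Nat.coprime_two_left.2 ho)
  have hB : sg (2 ^ t) * sg n < 2 ^ (t + 1) * n := by
    by_contra hcon
    apply hT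
    refine ⟨Nat.one_le_two_pow, by rw [pow_succ] at hs2; omega, ?_⟩
    rw [sg_mul hc2]
    rw [pow_succ] at hcon
    push Not at hcon
    calc 2 * (2 ^ t * n) = 2 ^ t * 2 * n := by ring
      _ ≤ _ := hcon
  have hcop : Nat.Coprime k n := by
    apply Nat.coprime_of_dvd
    intro p hp hpk hpn
    have hpk' : p ≤ k := Nat.le_of_dvd hk1 hpk
    have h1 := sg_ge_div (by omega : 0 < n) hp.one_lt hpn
    obtain ⟨m, rfl⟩ := hpn
    have hm : 0 < m := by
      rcases Nat.eq_zero_or_pos m with h | h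
      · subst h; simp at hn
      · exact h
    rw [Nat.mul_div_cancel_left _ hp.pos] at h1
    have h2 : sg (2 ^ t) * (p * m + m) ≤ sg (2 ^ t) * sg (p * m) := Nat.mul_le_mul_left _ h1
    have h3 : sg (2 ^ t) * m < p * m := by
      rw [← hs2] at hB
      nlinarith
    have h4 : sg (2 ^ t) < p := lt_of_mul_lt_mul_right h3 (Nat.zero_le _)
    have h5 : p = 2 ^ (t + 1) := by omega
    have h6 : Odd p := (Nat.odd_mul.1 ho).1
    rw [h5] at h6
    exact (Nat.not_even_iff_odd.2 h6) (by rw [Nat.even_pow]; exact ⟨even_two, by omega⟩)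
  rw [sg_mul hcop] at hk3
  by_contra hne
  have hlt : sg k + 2 ≤ 2 * k := by omega
  have hkpos : 0 < sg k := lt_of_lt_of_le hk1 (sg_ge_self hk1)
  have hnpos : 0 < n := by omega
  have e1 : sg (2 ^ t) * (2 * (k * n)) ≤ sg (2 ^ t) * (sg k * sg n) := Nat.mul_le_mul_left _ hk3
  have e2 : sg k * (sg (2 ^ t) * sg n) < sg k * (2 ^ (t + 1) * n) :=
    Nat.mul_lt_mul_of_pos_left hB hkpos
  have e3 : (2 * k * sg (2 ^ t)) * n < (sg k * 2 ^ (t + 1)) * n := by nlinarith
  have e4 : 2 * k * sg (2 ^ t) < sg k * 2 ^ (t + 1) := lt_of_mul_lt_mul_right e3 (Nat.zero_le _)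
  have e5 : (sg k + 2) * 2 ^ (t + 1) ≤ 2 * k * 2 ^ (t + 1) := Nat.mul_le_mul_right _ hlt
  rw [← hs2] at e4 e5 hkt
  nlinarith

lemma mult_nonempty {n : ℕ} (hn : 2 ≤ n) : (Mult n).Nonempty := by
  rcases Nat.even_or_odd n with he | ho
  · by_cases h3 : 3 ∣ n
    · refine ⟨1, le_rfl, by rw [sg_one]; norm_num, ?_⟩
      rw [one_mul]
      exact sg_six (by omega) (by
        have : 2 ∣ n := he.two_dvd
        omega)
    · refine ⟨3, by norm_num, by rw [sg_prime Nat.prime_three]; norm_num, ?_⟩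
      have hc : Nat.Coprime 3 n := (Nat.Prime.coprime_iff_not_dvd Nat.prime_three).2 h3
      rw [sg_mul hc, sg_prime Nat.prime_three]
      have h2 : 2 ∣ n := he.two_dvd
      have := sg_ge_div (by omega : 0 < n) one_lt_two h2
      omega
  · exact ⟨_, mult_odd hn ho⟩

lemma partA {n : ℕ} (hn : 2 ≤ n) : a n = 3 ∨ sg (a n) + 1 = 2 * a n := by
  have hmem : a n ∈ Mult n := Nat.sInf_mem (mult_nonempty hn)
  rcases Nat.even_or_odd n with he | ho
  · have hle : a n ≤ 3 := by
      by_cases h3 : 3 ∣ n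
      · refine le_trans (Nat.sInf_le (?_ : 1 ∈ Mult n)) (by norm_num)
        refine ⟨le_rfl, by rw [sg_one]; norm_num, ?_⟩
        rw [one_mul]
        exact sg_six (by omega) (by
          have : 2 ∣ n := he.two_dvd
          omega)
      · refine Nat.sInf_le (?_ : 3 ∈ Mult n)
        refine ⟨by norm_num, by rw [sg_prime Nat.prime_three]; norm_num, ?_⟩
        have hc : Nat.Coprime 3 n := (Nat.Prime.coprime_iff_not_dvd Nat.prime_three).2 h3
        rw [sg_mul hc, sg_prime Nat.prime_three]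
        have h2 : 2 ∣ n := he.two_dvd
        have := sg_ge_div (by omega : 0 < n) one_lt_two h2
        omega
    have h1 := hmem.1
    have h12 : a n = 1 ∨ a n = 2 ∨ a n = 3 := by omega
    rcases h12 with h | h | h
    · right; rw [h, sg_one]
    · right; rw [h, sg_prime Nat.prime_two]
    · left; exact h
  · right
    rcases Nat.lt_or_ge (a n) 2 with h | h
    · have h1 := hmem.1
      have h2 : a n = 1 := by omega
      rw [h2, sg_one]
    · have hb : a n - 1 < 2 ^ (Nat.log 2 (a n - 1) + 1) := Nat.lt_pow_succ_log_self (by norm_num) _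
      have hc : 2 ^ (Nat.log 2 (a n - 1)) ≤ a n - 1 := Nat.pow_log_le_self 2 (by omega)
      refine key (t := Nat.log 2 (a n - 1)) ho hn hmem (by omega) ?_
      exact Nat.notMem_of_lt_sInf (by
        change _ < a n
        omega)


/-- the primes `p` with `M < p < N` -/
def F (M N : ℕ) : Finset ℕ := (range N).filter (fun p => p.Prime ∧ M < p)

lemma sum_le_prod (s : Finset ℕ) :
    1 + ∑ p ∈ s, (1 / (p : ℝ)) ≤ ∏ p ∈ s, (1 + 1 / (p : ℝ)) := by
  induction s using Finset.induction_on with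
  | empty => simp
  | insert q s hq ih =>
    rw [Finset.sum_insert hq, Finset.prod_insert hq]
    have h1 : (0 : ℝ) ≤ 1 / (q : ℝ) := by positivity
    have h2 : (0 : ℝ) ≤ ∑ p ∈ s, (1 / (p : ℝ)) := Finset.sum_nonneg (fun _ _ => by positivity)
    nlinarith [mul_nonneg h1 h2]

lemma unbounded (M : ℕ) (A : ℝ) : ∃ N, A ≤ ∏ p ∈ F M N, (1 + 1 / (p : ℝ)) := by
  classical
  let g : ℕ → ℝ := Set.indicator {p | p.Prime ∧ M < p} (fun n : ℕ => (1 : ℝ) / n)
  have hg : ¬ Summable g := by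
    intro h
    apply not_summable_one_div_on_primes
    rw [← summable_nat_add_iff (M + 1)]
    have h' := (summable_nat_add_iff (M + 1)).2 h
    refine h'.congr (fun n => ?_)
    by_cases hp : (n + (M + 1)).Prime
    · have e1 : n + (M + 1) ∈ ({p | p.Prime ∧ M < p} : Set ℕ) := ⟨hp, by omega⟩
      have e2 : n + (M + 1) ∈ ({p | p.Prime} : Set ℕ) := hp
      simp only [g]
      rw [Set.indicator_of_mem e1, Set.indicator_of_mem e2]
    · have e1 : n + (M + 1) ∉ ({p | p.Prime ∧ M < p} : Set ℕ) := fun h => hp h.1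
      have e2 : n + (M + 1) ∉ ({p | p.Prime} : Set ℕ) := hp
      simp only [g]
      rw [Set.indicator_of_notMem e1, Set.indicator_of_notMem e2]
  have hg0 : ∀ n, 0 ≤ g n := fun n => Set.indicator_nonneg (fun _ _ => by positivity) n
  have ht := (not_summable_iff_tendsto_nat_atTop_of_nonneg hg0).1 hg
  obtain ⟨N, hN⟩ := (ht.eventually (Filter.eventually_ge_atTop A)).exists
  refine ⟨N, ?_⟩
  have h1 := sum_le_prod (F M N)
  have h2 : ∑ i ∈ range N, g i = ∑ p ∈ F M N, (1 / (p : ℝ)) := by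
    unfold F
    rw [Finset.sum_filter]
    refine Finset.sum_congr rfl (fun i _ => ?_)
    simp only [g, Set.indicator_apply, Set.mem_ofPred_eq]
  linarith

lemma sg_prod (M N : ℕ) :
    (sg (∏ p ∈ F M N, p) : ℝ) = (∏ p ∈ F M N, (1 + 1 / (p : ℝ))) * ((∏ p ∈ F M N, p : ℕ) : ℝ) := by
  have hp : ∀ p ∈ F M N, p.Prime := fun p hp => (Finset.mem_filter.1 hp).2.1
  rw [sg_eq, isMultiplicative_sigma.map_prod_of_prime _ hp]
  push_cast
  rw [← Finset.prod_mul_distrib]
  refine Finset.prod_congr rfl (fun p h => ?_)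
  rw [← sg_eq, sg_prime (hp p h)]
  have : (p : ℝ) ≠ 0 := by exact_mod_cast (hp p h).ne_zero
  push_cast
  field_simp

lemma exists_n (M : ℕ) (α β : ℝ) (hM : 0 < M) (hα : 1 < α) (hβ : α * (1 + 1 / M) ≤ β) :
    ∃ n : ℕ, 0 < n ∧ (∀ p : ℕ, p.Prime → p ∣ n → M < p) ∧ α * n ≤ sg n ∧ (sg n : ℝ) < β * n := by
  classical
  have hex := unbounded M α
  obtain ⟨N, hN, hmin⟩ : ∃ N, α ≤ ∏ p ∈ F M N, (1 + 1 / (p : ℝ)) ∧
      ∀ m < N, ¬ α ≤ ∏ p ∈ F M m, (1 + 1 / (p : ℝ)) :=
    ⟨Nat.find hex, Nat.find_spec hex, fun m hm => Nat.find_min hex hm⟩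
  have hn0 : 0 < ∏ p ∈ F M N, p :=
    Finset.prod_pos (fun p hp => ((Finset.mem_filter.1 hp).2.1).pos)
  have hn0' : (0 : ℝ) < ((∏ p ∈ F M N, p : ℕ) : ℝ) := by exact_mod_cast hn0
  refine ⟨∏ p ∈ F M N, p, hn0, ?_, ?_, ?_⟩
  · intro p hp hd
    obtain ⟨q, hq, hpq⟩ := (Prime.dvd_finsetProd_iff hp.prime _).1 hd
    have hq' := (Finset.mem_filter.1 hq).2
    have : p = q := (Nat.prime_dvd_prime_iff_eq hp hq'.1).1 hpq
    rw [this]; exact hq'.2
  · rw [sg_prod]
    exact mul_le_mul_of_nonneg_right hN hn0'.le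
  · rw [sg_prod]
    apply mul_lt_mul_of_pos_right _ hn0'
    rcases N with _ | N
    · simp [F] at hN
      linarith
    · have h1 := hmin N (Nat.lt_succ_self N)
      push Not at h1
      by_cases hc : N.Prime ∧ M < N
      · have hF : F M (N + 1) = insert N (F M N) := by
          unfold F
          rw [Finset.range_add_one, Finset.filter_insert, if_pos hc]
        have hnot : N ∉ F M N := by
          simp [F]
        rw [hF, Finset.prod_insert hnot]
        have hNpos : (0 : ℝ) < N := by exact_mod_cast hc.1.pos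
        have hMpos : (0 : ℝ) < M := by exact_mod_cast hM
        have hMN : (1 : ℝ) / N ≤ 1 / M := one_div_le_one_div_of_le hMpos (by exact_mod_cast hc.2.le)
        have hpos : (0 : ℝ) < 1 + 1 / N := by positivity
        calc (1 + 1 / (N : ℝ)) * ∏ p ∈ F M N, (1 + 1 / (p : ℝ)) < (1 + 1 / (N : ℝ)) * α :=
              mul_lt_mul_of_pos_left h1 hpos
          _ ≤ (1 + 1 / M) * α := mul_le_mul_of_nonneg_right (by linarith) (by linarith)
          _ = α * (1 + 1 / M) := mul_comm _ _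
          _ ≤ β := hβ
      · have hF : F M (N + 1) = F M N := by
          unfold F
          rw [Finset.range_add_one, Finset.filter_insert, if_neg hc]
        rw [hF] at hN
        linarith


/-- every almost perfect `k ≥ 2` is a value of `a`. -/
lemma realize {k : ℕ} (hk : 2 ≤ k) (hap : sg k + 1 = 2 * k) : ∃ n, 2 ≤ n ∧ a n = k := by
  have hkR : (2 : ℝ) ≤ k := by exact_mod_cast hk
  have hapR : (sg k : ℝ) = 2 * k - 1 := by
    have : (sg k : ℝ) + 1 = 2 * k := by exact_mod_cast hap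
    linarith
  set α : ℝ := 2 * k / (2 * k - 1) with hαdef
  set β : ℝ := min ((2 * k - 2) / (2 * k - 3)) (3 / 2) with hβdef
  have hd1 : (0 : ℝ) < 2 * k - 1 := by linarith
  have hd3 : (0 : ℝ) < 2 * k - 3 := by linarith
  have hα : 1 < α := by
    rw [hαdef, lt_div_iff₀ hd1]; linarith
  have hαβ : α < β := by
    rw [hβdef, lt_min_iff]
    constructor
    · rw [hαdef, div_lt_div_iff₀ hd1 hd3]; nlinarith
    · rw [hαdef, div_lt_div_iff₀ hd1 (by norm_num)]; linarith
  obtain ⟨M0, hM0⟩ := exists_nat_gt (α / (β - α))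
  set M : ℕ := max M0 (k + 3) with hMdef
  have hM1 : k + 3 ≤ M := le_max_right _ _
  have hM : 0 < M := by omega
  have hMR : (0 : ℝ) < M := by exact_mod_cast hM
  have hβ : α * (1 + 1 / M) ≤ β := by
    have h1 : α / (β - α) < M := hM0.trans_le (by exact_mod_cast le_max_left _ _)
    rw [div_lt_iff₀ (by linarith)] at h1
    have h2 : α * (1 / M) < β - α := by
      rw [mul_one_div, div_lt_iff₀ hMR]; linarith
    linarith
  obtain ⟨n, hn0, hnp, hn1, hn2⟩ := exists_n M α β hM hα hβ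
  have hnR : (0 : ℝ) < n := by exact_mod_cast hn0
  have hn : 2 ≤ n := by
    by_contra hcon
    have : n = 1 := by omega
    subst this
    rw [sg_one] at hn1
    push_cast at hn1
    linarith
  have hcop : ∀ m : ℕ, 1 ≤ m → m ≤ M → Nat.Coprime m n := by
    intro m hm1 hmM
    apply Nat.coprime_of_dvd
    intro p hp hpm hpn
    have h1 := Nat.le_of_dvd hm1 hpm
    have h2 := hnp p hp hpn
    omega
  have hkM : k ∈ Mult n := by
    refine ⟨by omega, by omega, ?_⟩
    rw [sg_mul (hcop k (by omega) (by omega))]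
    have h1 : (2 * k : ℝ) * n ≤ (2 * k - 1) * sg n := by
      rw [hαdef, div_mul_eq_mul_div, div_le_iff₀ hd1] at hn1
      linarith
    rw [← hapR] at h1
    have h2 : 2 * k * n ≤ sg k * sg n := by exact_mod_cast h1
    calc 2 * (k * n) = 2 * k * n := by ring
      _ ≤ _ := h2
  refine ⟨n, hn, ?_⟩
  have hle : a n ≤ k := Nat.sInf_le hkM
  have hmem : a n ∈ Mult n := Nat.sInf_mem (mult_nonempty hn)
  have hmul : 2 * (a n * n) ≤ sg (a n) * sg n := by
    have := hmem.2.2
    rwa [sg_mul (hcop _ hmem.1 (by omega))] at this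
  have hmulR : (2 : ℝ) * (a n * n) ≤ sg (a n) * sg n := by exact_mod_cast hmul
  rcases partA hn with h3 | hA
  · exfalso
    have hb : (sg n : ℝ) < 3 / 2 * n := hn2.trans_le
      (mul_le_mul_of_nonneg_right (min_le_right _ _) hnR.le)
    rw [h3, sg_prime Nat.prime_three] at hmulR
    push_cast at hmulR
    linarith
  · by_contra hne
    have hlt : a n + 1 ≤ k := by omega
    have hb : (sg n : ℝ) < (2 * k - 2) / (2 * k - 3) * n := hn2.trans_le
      (mul_le_mul_of_nonneg_right (min_le_left _ _) hnR.le)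
    have hAR : (sg (a n) : ℝ) = 2 * a n - 1 := by
      have : (sg (a n) : ℝ) + 1 = 2 * a n := by exact_mod_cast hA
      linarith
    have hltR : (a n : ℝ) + 1 ≤ k := by exact_mod_cast hlt
    have h1R : (1 : ℝ) ≤ a n := by exact_mod_cast hmem.1
    rw [hAR] at hmulR
    have hb' : (sg n : ℝ) * (2 * k - 3) < (2 * k - 2) * n := by
      rw [div_mul_eq_mul_div, lt_div_iff₀ hd3] at hb
      exact hb
    have h5 : (2 * a n - 1 : ℝ) * ((sg n : ℝ) * (2 * k - 3)) < (2 * a n - 1) * ((2 * k - 2) * n) :=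
      mul_lt_mul_of_pos_left hb' (by linarith)
    have h6 : (2 : ℝ) * (a n * n) * (2 * k - 3) ≤ (2 * a n - 1) * sg n * (2 * k - 3) :=
      mul_le_mul_of_nonneg_right hmulR hd3.le
    have h7 : (0 : ℝ) ≤ (k - a n - 1) * n := mul_nonneg (by linarith) hnR.le
    nlinarith

lemma a_six : a 6 = 1 := by
  have h : a 6 ≤ 1 := Nat.sInf_le ⟨le_rfl, by decide, by decide⟩
  have h2 : a 6 ∈ Mult 6 := Nat.sInf_mem (mult_nonempty (by norm_num))
  have := h2.1
  omega

lemma a_two : a 2 = 3 := by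
  have h2 : a 2 ∈ Mult 2 := Nat.sInf_mem (mult_nonempty (by norm_num))
  have h : a 2 ≤ 3 := Nat.sInf_le ⟨by norm_num, by decide, by decide⟩
  have h1 := h2.1
  have h3 : a 2 ≠ 1 := by
    intro h; rw [h] at h2
    exact absurd h2.2.2 (by decide)
  have h4 : a 2 ≠ 2 := by
    intro h; rw [h] at h2
    exact absurd h2.2.2 (by decide)
  omega

/-- The values of `a` on the integers `n ≥ 2` are exactly `3` and the almost perfect numbers (the `k ≥ 1`
whose divisor sum is `2k - 1`); hence the assertion of Q1 (each `a n` is `1`, `3` or a power of `2`) holds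
if and only if every almost perfect number is a power of `2`. -/
theorem result :
    (∀ k : ℕ, (∃ n : ℕ, 2 ≤ n ∧ a n = k) ↔ (k = 3 ∨ (1 ≤ k ∧ sg k + 1 = 2 * k))) ∧
    ((∀ n : ℕ, 2 ≤ n → (a n = 1 ∨ a n = 3 ∨ ∃ j : ℕ, a n = 2 ^ j)) ↔
      ∀ k : ℕ, 1 ≤ k → sg k + 1 = 2 * k → ∃ j : ℕ, k = 2 ^ j) := by
  have hfirst : ∀ k : ℕ, (∃ n : ℕ, 2 ≤ n ∧ a n = k) ↔
      (k = 3 ∨ (1 ≤ k ∧ sg k + 1 = 2 * k)) := by
    intro k
    constructor
    · rintro ⟨n, hn, rfl⟩
      rcases partA hn with h | h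
      · exact Or.inl h
      · exact Or.inr ⟨(Nat.sInf_mem (mult_nonempty hn)).1, h⟩
    · rintro (rfl | ⟨h1, h2⟩)
      · exact ⟨2, le_rfl, a_two⟩
      · rcases Nat.lt_or_ge k 2 with h | h
        · have : k = 1 := by omega
          subst this
          exact ⟨6, by norm_num, a_six⟩
        · exact realize h h2
  refine ⟨hfirst, ?_, ?_⟩
  · intro hQ k hk1 hk2
    obtain ⟨n, hn, hnk⟩ := (hfirst k).2 (Or.inr ⟨hk1, hk2⟩)
    rcases hQ n hn with h | h | ⟨j, h⟩
    · exact ⟨0, by rw [← hnk, h]; norm_num⟩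
    · exfalso
      rw [← hnk, h, sg_prime Nat.prime_three] at hk2
      omega
    · exact ⟨j, by rw [← hnk, h]⟩
  · intro hP n hn
    rcases (hfirst (a n)).1 ⟨n, hn, rfl⟩ with h | ⟨h1, h2⟩
    · exact Or.inr (Or.inl h)
    · exact Or.inr (Or.inr (hP _ h1 h2))


end Pool.Agent.Results.MP_c5ead3_nt.AlmostPerfectEquivalence
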